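import Pool.Agent.Lib_helper40.NLM.Loc

/-!
# Averaged local decay for the defocusing cubic NLS in all dimensions

Two classes of potentials on `ℝⁿ` for which every bounded solution of
`i ψ_t = - Δψ + V ψ + |ψ|² ψ`, of any size, leaves every ball in the mean, uniformly in time; in
particular there are no localized solutions:

* `V(x) = W(|x|) + U(x)`, `W ≥ 0` continuous, bounded, `∫₀^∞ r W(r) dr < ∞` (no monotonicity),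
  `U` bounded, `C¹`, `x · ∇U ≤ 0`;
* `V` bounded, `C¹`, and non-increasing along the flow of an affine vector field `A x + β` with
  `⟨A x, x⟩ ≥ 0` and `tr A > 0`. Example: `V` non-increasing away from a hyperplane in the normal
  direction, such as any sum of radially decreasing bumps centred on a hyperplane (in `ℝⁿ`: any
  `n` bumps), or `v(x') w(x_n)` with `v ≥ 0` arbitrary and `w` even and decreasing on `[0, ∞)`.
-/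

namespace Pool.Agent.Results.MP_0c4061_mp.AveragedDecay

open MeasureTheory Filter Topology Set
open Pool.Agent.Lib_helper40.NLN Pool.Agent.Lib_helper40.NLM

/-- The first class: `V(x) = W(|x|) + U(x)` with `W ≥ 0` continuous, bounded and short
range, `∫₀^∞ r W(r) dr < ∞`, and `U` of class `C¹`, bounded and repulsive, `x · ∇U(x) ≤ 0`
(for example `U = 0`). -/
def IsRadialPlusRepulsive {n : ℕ} (V : EuclideanSpace ℝ (Fin n) → ℝ) : Prop :=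
  ∃ (W : ℝ → ℝ) (U : EuclideanSpace ℝ (Fin n) → ℝ),
    (∀ x, V x = W ‖x‖ + U x) ∧
    Continuous W ∧ (∀ r, 0 ≤ W r) ∧ (∃ C : ℝ, ∀ r, W r ≤ C) ∧
    IntegrableOn (fun r : ℝ => r * W r) (Ioi 0) ∧
    ContDiff ℝ 1 U ∧ (∃ C : ℝ, ∀ x, |U x| ≤ C) ∧ (∀ x, fderiv ℝ U x x ≤ 0)

/-- The second class: `V` bounded, of class `C¹`, with `(A x + β) · ∇V(x) ≤ 0` for all `x`, for
some linear map `A` with `⟨A x, x⟩ ≥ 0` for all `x` and positive trace, and some vector `β`. -/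
def IsAffineDecreasing {n : ℕ} (V : EuclideanSpace ℝ (Fin n) → ℝ) : Prop :=
  ContDiff ℝ 1 V ∧ (∃ C : ℝ, ∀ x, |V x| ≤ C) ∧
    ∃ (A : EuclideanSpace ℝ (Fin n) →L[ℝ] EuclideanSpace ℝ (Fin n))
      (β : EuclideanSpace ℝ (Fin n)),
      (∀ x, 0 ≤ inner ℝ (A x) x) ∧ 0 < ∑ j, A (EuclideanSpace.single j 1) j ∧
      ∀ x, fderiv ℝ V x (A x + β) ≤ 0

/-- `f ∈ H¹(ℝⁿ)` with weak gradient `F`. -/
structure IsH1 {n : ℕ} (f : EuclideanSpace ℝ (Fin n) → ℂ)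
    (F : Fin n → EuclideanSpace ℝ (Fin n) → ℂ) : Prop where
  memLp : MemLp f 2 volume
  memLp' : ∀ i, MemLp (F i) 2 volume
  weak : ∀ η : EuclideanSpace ℝ (Fin n) → ℝ, ContDiff ℝ (⊤ : ℕ∞) η → HasCompactSupport η → ∀ i,
    ∫ x, (fderiv ℝ η x (EuclideanSpace.single i 1)) • f x = - ∫ x, η x • F i x

/-- `ψ` is a bounded solution: `ψ ∈ C(ℝ; H¹(ℝⁿ))` with `sup_t ‖ψ(t)‖_{H¹} < ∞`, and
`i ψ_t = - Δψ + V ψ + |ψ|² ψ` in the sense of distributions on `ℝ × ℝⁿ`. -/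
def IsBoundedSolution {n : ℕ} (V : EuclideanSpace ℝ (Fin n) → ℝ)
    (ψ : ℝ → EuclideanSpace ℝ (Fin n) → ℂ) : Prop :=
  ∃ ψ' : ℝ → Fin n → EuclideanSpace ℝ (Fin n) → ℂ,
    (∀ t, IsH1 (ψ t) (ψ' t)) ∧
    (∃ C : ℝ, ∀ t, ∫ x, (‖ψ t x‖ ^ 2 + ∑ i, ‖ψ' t i x‖ ^ 2) ≤ C) ∧
    (∀ t₀, Tendsto
      (fun t => ∫ x, (‖ψ t x - ψ t₀ x‖ ^ 2 + ∑ i, ‖ψ' t i x - ψ' t₀ i x‖ ^ 2)) (𝓝 t₀) (𝓝 0)) ∧
    (∀ θ : ℝ → EuclideanSpace ℝ (Fin n) → ℝ,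
      ContDiff ℝ (⊤ : ℕ∞) (fun p : ℝ × EuclideanSpace ℝ (Fin n) => θ p.1 p.2) →
      HasCompactSupport (fun p : ℝ × EuclideanSpace ℝ (Fin n) => θ p.1 p.2) →
      ∫ t, ∫ x, (Complex.I * ψ t x * ((deriv (fun s => θ s x) t : ℝ) : ℂ)
        + ∑ i, ψ' t i x * ((fderiv ℝ (θ t) x (EuclideanSpace.single i 1) : ℝ) : ℂ)
        + ((V x + ‖ψ t x‖ ^ 2 : ℝ) : ℂ) * ψ t x * ((θ t x : ℝ) : ℂ)) = 0)

/-- `ψ ∈ C(ℝ; L⁶(ℝⁿ))` with `sup_t ‖ψ(t)‖_{L⁶} < ∞`; only used in dimensions `n ≠ 2, 3`. -/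
def IsBoundedL6 {n : ℕ} (ψ : ℝ → EuclideanSpace ℝ (Fin n) → ℂ) : Prop :=
  (∀ t, MemLp (ψ t) 6 volume) ∧ (∃ C : ℝ, ∀ t, ∫ x, ‖ψ t x‖ ^ 6 ≤ C) ∧
    (∀ t₀, Tendsto (fun t => ∫ x, ‖ψ t x - ψ t₀ x‖ ^ 6) (𝓝 t₀) (𝓝 0))

/-- The weighted norm `‖⟨x⟩^δ ψ(t)‖` in `L²` is bounded uniformly in `t ≥ 0`. -/
def IsLocalized {n : ℕ} (δ : ℝ) (ψ : ℝ → EuclideanSpace ℝ (Fin n) → ℂ) : Prop :=
  ∃ C : ℝ, ∀ t, 0 ≤ t →
    Integrable (fun x => ((√(1 + ‖x‖ ^ 2)) ^ δ * ‖ψ t x‖) ^ 2) volume ∧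
    ∫ x, ((√(1 + ‖x‖ ^ 2)) ^ δ * ‖ψ t x‖) ^ 2 ≤ C

/-- For potentials in one of the two classes every bounded solution, of any size, decays locally
in the mean, uniformly in time, and it is not localized unless it vanishes. -/
theorem result {n : ℕ} (hn : 1 ≤ n) (V : EuclideanSpace ℝ (Fin n) → ℝ)
    (hV : IsRadialPlusRepulsive V ∨ IsAffineDecreasing V)
    (ψ : ℝ → EuclideanSpace ℝ (Fin n) → ℂ) (hψ : IsBoundedSolution V ψ)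
    (h6 : n = 2 ∨ n = 3 ∨ IsBoundedL6 ψ) :
    (∀ R ε : ℝ, 0 < R → 0 < ε → ∃ T₀ : ℝ, 0 < T₀ ∧ ∀ s T : ℝ, T₀ ≤ T →
      ∫ t in s..(s + T),
        ∫ x in Metric.closedBall (0 : EuclideanSpace ℝ (Fin n)) R, ‖ψ t x‖ ^ 2 ≤ ε * T) ∧
    (∀ δ : ℝ, 0 < δ → IsLocalized δ ψ → ∀ t, ψ t =ᵐ[volume] 0) := by
  obtain ⟨ψ', h1', ⟨C, hC⟩, hcont, heq⟩ := hψ
  have h1 : ∀ t, H1n (ψ t) (ψ' t) := fun t =>
    ⟨(h1' t).memLp, (h1' t).memLp', fun η hη i => (h1' t).weak η hη.1 hη.2 i⟩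
  have hL6 : IsBoundedL6 ψ := by
    rcases h6 with h | h | h
    · exact l6_of_h1 (Or.inl h) h1 hC hcont
    · exact l6_of_h1 (Or.inr h) h1 hC hcont
    · exact h
  obtain ⟨l6, ⟨C6, hC6⟩, hc6⟩ := hL6
  -- continuity and boundedness of the potential
  obtain ⟨cV, Vb, hVb⟩ : Continuous V ∧ ∃ Vb : ℝ, ∀ x, |V x| ≤ Vb := by
    rcases hV with ⟨W, U, hVe, hW, hW0, ⟨Vm, hVm⟩, hWi, hU, ⟨Um, hUm⟩, hUr⟩ | ⟨h, ⟨Vm, hVm⟩, -⟩
    · have hVf : V = fun x => W ‖x‖ + U x := funext hVe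
      subst hVf
      refine ⟨(hW.comp continuous_norm).add hU.continuous, Vm + Um, fun x => ?_⟩
      refine (abs_add_le _ _).trans (add_le_add ?_ (hUm x))
      rw [abs_of_nonneg (hW0 _)]; exact hVm _
    · exact ⟨h.continuous, Vm, hVm⟩
  have hS : SolN V ψ ψ' (max C C6) :=
    weak_stmt n _ Vb cV hVb ψ ψ' (max C C6) h1 l6
      (fun t => (hC t).trans (le_max_left _ _)) (fun t => (hC6 t).trans (le_max_right _ _))
      hcont hc6 heq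
  have hn0 : (0 : ℝ) < n := by exact_mod_cast hn
  have havg : ∀ R : ℝ, 0 < R → ∀ ε : ℝ, 0 < ε → ∃ T₀ : ℝ, 0 < T₀ ∧ ∀ s T : ℝ, T₀ ≤ T →
      ∫ t in s..(s + T),
        ∫ x in Metric.closedBall (0 : EuclideanSpace ℝ (Fin n)) R, ‖ψ t x‖ ^ 2 ≤ ε * T := by
    intro R hR
    rcases hV with ⟨W, U, hVe, hW, hW0, ⟨Vm, hVm⟩, hWi, hU, -, hUr⟩ | ⟨h, -, A, β, hA, htr, hr⟩
    · have hVf : V = fun x => W ‖x‖ + U x := funext hVe
      subst hVf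
      exact avg_of_vir cV hVb hS hR
        (by positivity : 0 < n / 2 * Real.exp (-∫ r in Ioi 0, r * W r)) fun ε₀ hε =>
          virbd_x hn hS.C0 hW hW0 (fun x => hVm _) hWi hU hUr hε
    · exact avg_of_vir cV hVb hS hR (half_pos htr) fun ε₀ hε =>
        virbd_lin A β hA htr h hr hS.C0 hε
  refine ⟨fun R ε hR hε => havg R hR ε hε, ?_⟩
  rintro δ hδ ⟨K', hK'⟩
  exact no_loc cV hVb hS (fun R m hR hm => not_tight_of_avg hS havg R m hR hm) hδ hK'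

end Pool.Agent.Results.MP_0c4061_mp.AveragedDecay
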