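import Pool.Agent.Lib_helper40.NLM.Loc

/-!
# Morawetz estimate and local decay for the defocusing cubic NLS, non-repulsive potentials

For `V(x) = W(|x|) + U(x)` on `ℝⁿ`, with `W ≥ 0` an arbitrary continuous bounded profile such that
`∫₀^∞ r W(r) dr < ∞` (no monotonicity) and `U` a bounded `C¹` function with
`2 x · ∇U ≤ - g Δ² g`, `g = √(α²+|x|²)` for some `α > 0` (in dimension `n ≥ 3` the right hand side
is positive, so that `U = 0`, `x · ∇U ≤ 0` and small non-radial, non-repulsive `U` are allowed),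
every bounded solution of `i ψ_t = - Δψ + V ψ + |ψ|² ψ`, of any size, satisfies the global
Morawetz estimate and decays locally.
-/

namespace Pool.Agent.Results.MP_0c4061_mp.LocalDecay

open MeasureTheory Filter Topology Set
open Pool.Agent.Lib_helper40.NLN Pool.Agent.Lib_helper40.NLM

/-- The class of potentials: `V(x) = W(|x|) + U(x)` with `W ≥ 0` continuous, bounded and short
range, `∫₀^∞ r W(r) dr < ∞`, and `U` of class `C¹`, bounded, with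
`x · ∇U(x) ≤ ½ ((n-1)(n-3) g⁻² + 6 (n-3) α² g⁻⁴ + 15 α⁴ g⁻⁶)`, `g = √(α² + |x|²)`, for some
`α > 0` (for example `U = 0` when `n ≥ 3`). -/
def IsPotential {n : ℕ} (V : EuclideanSpace ℝ (Fin n) → ℝ) : Prop :=
  ∃ (W : ℝ → ℝ) (U : EuclideanSpace ℝ (Fin n) → ℝ) (α : ℝ), 0 < α ∧
    (∀ x, V x = W ‖x‖ + U x) ∧
    Continuous W ∧ (∀ r, 0 ≤ W r) ∧ (∃ C : ℝ, ∀ r, W r ≤ C) ∧
    IntegrableOn (fun r : ℝ => r * W r) (Ioi 0) ∧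
    ContDiff ℝ 1 U ∧ (∃ C : ℝ, ∀ x, |U x| ≤ C) ∧
    (∀ x, fderiv ℝ U x x ≤ 1 / 2 * ((n - 1) * (n - 3) / (α ^ 2 + ‖x‖ ^ 2)
      + 6 * (n - 3) * α ^ 2 / (α ^ 2 + ‖x‖ ^ 2) ^ 2 + 15 * α ^ 4 / (α ^ 2 + ‖x‖ ^ 2) ^ 3))

/-- `f ∈ H¹(ℝⁿ)` with weak gradient `F`. -/
structure IsH1 {n : ℕ} (f : EuclideanSpace ℝ (Fin n) → ℂ)
    (F : Fin n → EuclideanSpace ℝ (Fin n) → ℂ) : Prop where
  memLp : MemLp f 2 volume
  memLp' : ∀ i, MemLp (F i) 2 volume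
  weak : ∀ η : EuclideanSpace ℝ (Fin n) → ℝ, ContDiff ℝ (⊤ : ℕ∞) η → HasCompactSupport η → ∀ i,
    ∫ x, (fderiv ℝ η x (EuclideanSpace.single i 1)) • f x = - ∫ x, η x • F i x

/-- `ψ` is a bounded solution: `ψ ∈ C(ℝ; H¹(ℝⁿ))` with `sup_t ‖ψ(t)‖_{H¹} < ∞`, and
`i ψ_t = - Δψ + V ψ + |ψ|² ψ` in the sense of distributions on `ℝ × ℝⁿ`. -/
def IsBoundedSolution {n : ℕ} (V : EuclideanSpace ℝ (Fin n) → ℝ)
    (ψ : ℝ → EuclideanSpace ℝ (Fin n) → ℂ) : Prop :=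
  ∃ ψ' : ℝ → Fin n → EuclideanSpace ℝ (Fin n) → ℂ,
    (∀ t, IsH1 (ψ t) (ψ' t)) ∧
    (∃ C : ℝ, ∀ t, ∫ x, (‖ψ t x‖ ^ 2 + ∑ i, ‖ψ' t i x‖ ^ 2) ≤ C) ∧
    (∀ t₀, Tendsto
      (fun t => ∫ x, (‖ψ t x - ψ t₀ x‖ ^ 2 + ∑ i, ‖ψ' t i x - ψ' t₀ i x‖ ^ 2)) (𝓝 t₀) (𝓝 0)) ∧
    (∀ θ : ℝ → EuclideanSpace ℝ (Fin n) → ℝ,
      ContDiff ℝ (⊤ : ℕ∞) (fun p : ℝ × EuclideanSpace ℝ (Fin n) => θ p.1 p.2) →
      HasCompactSupport (fun p : ℝ × EuclideanSpace ℝ (Fin n) => θ p.1 p.2) →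
      ∫ t, ∫ x, (Complex.I * ψ t x * ((deriv (fun s => θ s x) t : ℝ) : ℂ)
        + ∑ i, ψ' t i x * ((fderiv ℝ (θ t) x (EuclideanSpace.single i 1) : ℝ) : ℂ)
        + ((V x + ‖ψ t x‖ ^ 2 : ℝ) : ℂ) * ψ t x * ((θ t x : ℝ) : ℂ)) = 0)

/-- `ψ ∈ C(ℝ; L⁶(ℝⁿ))` with `sup_t ‖ψ(t)‖_{L⁶} < ∞`; only used in dimensions `n ≥ 4`. -/
def IsBoundedL6 {n : ℕ} (ψ : ℝ → EuclideanSpace ℝ (Fin n) → ℂ) : Prop :=
  (∀ t, MemLp (ψ t) 6 volume) ∧ (∃ C : ℝ, ∀ t, ∫ x, ‖ψ t x‖ ^ 6 ≤ C) ∧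
    (∀ t₀, Tendsto (fun t => ∫ x, ‖ψ t x - ψ t₀ x‖ ^ 6) (𝓝 t₀) (𝓝 0))

/-- The weighted norm `‖⟨x⟩^δ ψ(t)‖` in `L²` is bounded uniformly in `t ≥ 0`. -/
def IsLocalized {n : ℕ} (δ : ℝ) (ψ : ℝ → EuclideanSpace ℝ (Fin n) → ℂ) : Prop :=
  ∃ C : ℝ, ∀ t, 0 ≤ t →
    Integrable (fun x => ((√(1 + ‖x‖ ^ 2)) ^ δ * ‖ψ t x‖) ^ 2) volume ∧
    ∫ x, ((√(1 + ‖x‖ ^ 2)) ^ δ * ‖ψ t x‖) ^ 2 ≤ C

/-- Every bounded solution, of any size, satisfies the Morawetz estimate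
`∫ ∫ |ψ|⁴ / √(1+|x|²) dx dt < ∞` over all times, its mass in every ball tends to zero as
`t → ±∞`, and it is not localized unless it vanishes. -/
theorem result {n : ℕ} (hn : 2 ≤ n) (V : EuclideanSpace ℝ (Fin n) → ℝ) (hV : IsPotential V)
    (ψ : ℝ → EuclideanSpace ℝ (Fin n) → ℂ) (hψ : IsBoundedSolution V ψ)
    (h6 : n = 2 ∨ n = 3 ∨ IsBoundedL6 ψ) :
    (∫⁻ t, ∫⁻ x, ENNReal.ofReal (‖ψ t x‖ ^ 4 / √(1 + ‖x‖ ^ 2)) < ⊤) ∧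
    (∀ R : ℝ,
      Tendsto (fun t => ∫ x in Metric.closedBall (0 : EuclideanSpace ℝ (Fin n)) R, ‖ψ t x‖ ^ 2)
        atTop (𝓝 0) ∧
      Tendsto (fun t => ∫ x in Metric.closedBall (0 : EuclideanSpace ℝ (Fin n)) R, ‖ψ t x‖ ^ 2)
        atBot (𝓝 0)) ∧
    (∀ δ : ℝ, 0 < δ → IsLocalized δ ψ → ∀ t, ψ t =ᵐ[volume] 0) := by
  obtain ⟨ψ', h1', ⟨C, hC⟩, hcont, heq⟩ := hψ
  obtain ⟨W, U, α, hα, hVe, hW, hW0, ⟨Vm, hVm⟩, hWi, hU, ⟨Um, hUm⟩, hUr⟩ := hV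
  have hVf : V = fun x => W ‖x‖ + U x := funext hVe
  subst hVf
  have h1 : ∀ t, H1n (ψ t) (ψ' t) := fun t =>
    ⟨(h1' t).memLp, (h1' t).memLp', fun η hη i => (h1' t).weak η hη.1 hη.2 i⟩
  have hL6 : IsBoundedL6 ψ := by
    rcases h6 with h | h | h
    · exact l6_of_h1 (Or.inl h) h1 hC hcont
    · exact l6_of_h1 (Or.inr h) h1 hC hcont
    · exact h
  obtain ⟨l6, ⟨C6, hC6⟩, hc6⟩ := hL6
  have cV : Continuous fun x : EuclideanSpace ℝ (Fin n) => W ‖x‖ + U x :=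
    (hW.comp continuous_norm).add hU.continuous
  have hVb : ∀ x : EuclideanSpace ℝ (Fin n), |W ‖x‖ + U x| ≤ Vm + Um := fun x => by
    refine (abs_add_le _ _).trans (add_le_add ?_ (hUm x))
    rw [abs_of_nonneg (hW0 _)]; exact hVm _
  have hS : SolN (fun x => W ‖x‖ + U x) ψ ψ' (max C C6) :=
    weak_stmt n _ (Vm + Um) cV hVb ψ ψ' (max C C6) h1 l6
      (fun t => (hC t).trans (le_max_left _ _)) (fun t => (hC6 t).trans (le_max_right _ _))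
      hcont hc6 heq
  obtain ⟨hq, K, hK⟩ := morawetz repx fld2 hn hα hW hW0 (fun x => hVm _) hWi hU hUm hUr hS
  have hdec := local_decay cV hVb hS hq hK
  refine ⟨?_, hdec, ?_⟩
  · have h0 : ∀ t, 0 ≤ ∫ x, wt x * ‖ψ t x‖ ^ 4 := fun t =>
      integral_nonneg fun x => mul_nonneg (wt_pos x).le (by positivity)
    have h2 := lint_of_bd hq h0 hK
    have i2 : ∀ t, Integrable fun x => ‖ψ t x‖ ^ 2 := fun t =>
      (h1 t).mem.integrable_norm_pow (by norm_num)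
    have i6 : ∀ t, Integrable fun x => ‖ψ t x‖ ^ 6 := fun t =>
      (l6 t).integrable_norm_pow (by norm_num)
    have e : ∀ t, ∫⁻ x, ENNReal.ofReal (‖ψ t x‖ ^ 4 / √(1 + ‖x‖ ^ 2)) =
        ENNReal.ofReal (∫ x, wt x * ‖ψ t x‖ ^ 4) := by
      intro t
      have i4 : Integrable fun x => wt x * ‖ψ t x‖ ^ 4 :=
        (q4 n (ψ t) (ψ t) wt univ 1 one_pos MeasurableSet.univ wt_cont.measurable
          (fun x => ⟨(wt_pos x).le, wt_le x⟩) (h1 t).mem.1 (h1 t).mem.1 (i2 t) (i2 t) (i6 t)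
          (i6 t)).1
      rw [ofReal_integral_eq_lintegral_ofReal i4
        (ae_of_all _ fun x => mul_nonneg (wt_pos x).le (by positivity))]
      refine lintegral_congr fun x => ?_
      unfold wt
      rw [div_eq_mul_inv, mul_comm]
    simp only [e]
    exact h2.trans_lt ENNReal.ofReal_lt_top
  · rintro δ hδ ⟨K', hK'⟩
    refine no_loc cV hVb hS (fun R m _ hm hc => ?_) hδ hK'
    have h3 := (hdec R).1.eventually (gt_mem_nhds (show 0 < m / 2 by positivity))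
    obtain ⟨t, ht0, ht⟩ := ((eventually_ge_atTop (0 : ℝ)).and h3).exists
    have := hc t ht0
    linarith

end Pool.Agent.Results.MP_0c4061_mp.LocalDecay
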