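import Pool.Agent.Lib52.NLSn.Prof5
import Pool.Agent.Lib_helper69.NLSn.H1
import Pool.Agent.Lib_helper65.NLSn.H2
import Pool.Agent.Lib_helper97.NLSn.D

/-!
# Localized solutions of the defocusing cubic NLS with a positive potential, all dimensions

In every dimension `n ≥ 1` we construct a smooth positive potential `V` all of whose derivatives
are `O(⟨x⟩⁻¹)`, such that `-Δ + V` has no eigenvalue at all (of any sign, in the sense of
distributions), while the defocusing cubic equation with this potential has a nonzero smooth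
global solution, bounded in `H¹`, as small as we please in `H¹`, continuous with values in `H¹`,
which is localized for all times with an arbitrary prescribed polynomial weight.
-/

namespace Pool.Agent.Results.MP_0c4061_mp.LocalizedAllDimensions

open MeasureTheory Filter Topology

/-- `n`-dimensional Euclidean space -/
abbrev E (n : ℕ) := EuclideanSpace ℝ (Fin n)

/-- The Laplacian, as the sum of the second partial derivatives. -/
noncomputable def lap {n : ℕ} {F : Type*} [NormedAddCommGroup F] [NormedSpace ℝ F]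
    (f : E n → F) (x : E n) : F :=
  ∑ i : Fin n, iteratedFDeriv ℝ 2 f x
    ![EuclideanSpace.single i (1 : ℝ), EuclideanSpace.single i (1 : ℝ)]

/-- The class of potentials: smooth, positive, and every derivative is `O(⟨x⟩⁻¹)`. -/
def IsPotential {n : ℕ} (V : E n → ℝ) : Prop :=
  ContDiff ℝ (⊤ : ℕ∞) V ∧ (∀ x, 0 < V x) ∧
    ∀ k : ℕ, ∃ C : ℝ, ∀ x, ‖iteratedFDeriv ℝ k V x‖ ≤ C / √(1 + ‖x‖ ^ 2)

/-- `-Δ + V` has no eigenvalue: every square integrable solution (in the sense of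
distributions) of `-Δ f + V f = λ f` vanishes almost everywhere. -/
def NoEigenvalue {n : ℕ} (V : E n → ℝ) : Prop :=
  ∀ (lam : ℝ) (f : E n → ℂ), MemLp f 2 volume →
    (∀ φ : E n → ℝ, ContDiff ℝ (⊤ : ℕ∞) φ → HasCompactSupport φ →
      ∫ x, f x * ((-(lap φ x) + V x * φ x : ℝ) : ℂ) =
        (lam : ℂ) * ∫ x, f x * ((φ x : ℝ) : ℂ)) →
    f =ᵐ[volume] 0

/-- `ψ` is a smooth global solution of `i ψ_t = -Δψ + V ψ + |ψ|² ψ`, bounded in `H¹` and
continuous in time with values in `H¹`. -/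
structure IsBoundedSolution {n : ℕ} (V : E n → ℝ) (ψ : ℝ → E n → ℂ) : Prop where
  smooth : ContDiff ℝ (⊤ : ℕ∞) (fun p : ℝ × E n => ψ p.1 p.2)
  eqn : ∀ t x, Complex.I * deriv (fun τ => ψ τ x) t =
    -(lap (ψ t) x) + (V x : ℂ) * ψ t x + (‖ψ t x‖ : ℂ) ^ 2 * ψ t x
  memH1 : ∀ t, MemLp (ψ t) 2 volume ∧ MemLp (fderiv ℝ (ψ t)) 2 volume
  bounded : ∃ C : ℝ, ∀ t, ∫ x, (‖ψ t x‖ ^ 2 + ‖fderiv ℝ (ψ t) x‖ ^ 2) ≤ C
  contH1 : ∀ t₀, Tendsto
    (fun t => ∫ x, (‖ψ t x - ψ t₀ x‖ ^ 2 + ‖fderiv ℝ (ψ t) x - fderiv ℝ (ψ t₀) x‖ ^ 2))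
    (𝓝 t₀) (𝓝 0)

/-- The weighted norm `‖⟨x⟩^δ ψ(t)‖` in `L²` is bounded uniformly in `t`. -/
def IsLocalized {n : ℕ} (δ : ℝ) (ψ : ℝ → E n → ℂ) : Prop :=
  ∃ C : ℝ, ∀ t,
    Integrable (fun x : E n => ((√(1 + ‖x‖ ^ 2)) ^ δ * ‖ψ t x‖) ^ 2) volume ∧
    ∫ x : E n, ((√(1 + ‖x‖ ^ 2)) ^ δ * ‖ψ t x‖) ^ 2 ≤ C

/-- In every dimension `n ≥ 1`, for every weight `δ > 0` and every `η > 0` there are a smooth
positive radial potential `V`, with all derivatives `O(⟨x⟩⁻¹)`, such that `-Δ + V` has no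
eigenvalue, and a nonzero smooth bounded solution of the defocusing cubic equation with
potential `V` which is localized with the weight `⟨x⟩^δ` and whose squared `H¹` norm is at
most `η` at all times. -/
theorem result (n : ℕ) (hn : 1 ≤ n) (δ : ℝ) (hδ : 0 < δ) (η : ℝ) (hη : 0 < η) :
    ∃ V : E n → ℝ, IsPotential V ∧ (∀ x y, ‖x‖ = ‖y‖ → V x = V y) ∧ NoEigenvalue V ∧
      ∃ ψ : ℝ → E n → ℂ, IsBoundedSolution V ψ ∧ (∃ t x, ψ t x ≠ 0) ∧ IsLocalized δ ψ ∧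
        ∀ t, ∫ x, (‖ψ t x‖ ^ 2 + ‖fderiv ℝ (ψ t) x‖ ^ 2) ≤ η := by
  set m : ℕ := max 1 ⌈δ⌉₊ with hm
  have hm1 : 1 ≤ m := le_max_left _ _
  have hδm : δ ≤ m := (Nat.le_ceil δ).trans (by exact_mod_cast le_max_right _ _)
  obtain ⟨W, U, hP⟩ := NLSn.stmtG n m hn hm1
  obtain ⟨ε0, hε0, hw⟩ := NLSn.stmtH1 n m hn hm1 W U hP δ hδ hδm η hη
  obtain ⟨ε, h1, h2, h3⟩ := NLSn.stmtH2 n m hn hm1 W U hP ε0 hε0
    (fun ε h1 h2 x => (hw ε h1 h2).1.2.1 x)
  obtain ⟨hV, ψ, hψ, hne, hloc, hsmall⟩ := hw ε h1 h2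
  exact ⟨fun x => W ‖x‖ - ε * U ‖x‖ ^ 2, hV, fun x y hxy => by simp only [hxy], h3, ψ,
    ⟨hψ.smooth, hψ.eqn, hψ.memH1, hψ.bounded, hψ.contH1⟩, hne, hloc, hsmall⟩

end Pool.Agent.Results.MP_0c4061_mp.LocalizedAllDimensions
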