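import Pool.Agent.Lib_helper40.NLM.One
import Pool.Agent.Lib_helper40.NLM.OneDec
import Pool.Agent.Lib_helper40.NLM.Dec
import Pool.Agent.Lib_helper40.NLM.Loc

/-!
# Local decay for the defocusing cubic NLS with a short range potential `V ≥ 0` in 1D

For every nonzero potential `V ≥ 0` on the line with `∫ (1 + |x|) V dx < ∞` (no condition on the
sign of `V'`, no smallness) every bounded solution of `i ψ_t = - ψ_xx + V ψ + |ψ|² ψ`, of any
size, satisfies a local Morawetz estimate and tends to zero locally uniformly as `t → ±∞`; there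
is no localized solution.
-/

namespace Pool.Agent.Results.MP_0c4061_mp.OneDimDecay

open MeasureTheory Filter Topology Set
open Pool.Agent.Lib_helper40.NLV Pool.Agent.Lib_helper40.NLM

/-- The class of potentials: continuous, bounded, nonnegative, not identically zero, and short
range: `∫ (1 + |x|) V(x) dx < ∞`. -/
structure IsPotential (V : ℝ → ℝ) : Prop where
  cont : Continuous V
  bounded : ∃ C : ℝ, ∀ x, |V x| ≤ C
  nonneg : ∀ x, 0 ≤ V x
  ne_zero : ∃ x, V x ≠ 0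
  short : Integrable (fun x => (1 + |x|) * V x)

/-- `f` is (the continuous representative of) a function in `H¹(ℝ)` and `f'` is its weak
derivative. -/
structure IsH1 (f f' : ℝ → ℂ) : Prop where
  memLp : MemLp f 2 volume
  memLp' : MemLp f' 2 volume
  ftc : ∀ a b : ℝ, f b - f a = ∫ x in a..b, f' x

/-- `ψ` is a bounded solution: `ψ ∈ C(ℝ; H¹(ℝ))` with `sup_t ‖ψ(t)‖_{H¹} < ∞`, and
`i ψ_t = - ψ_xx + V ψ + |ψ|² ψ` in the sense of distributions on `ℝ × ℝ`. -/
def IsBoundedSolution (V : ℝ → ℝ) (ψ : ℝ → ℝ → ℂ) : Prop :=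
  ∃ ψ' : ℝ → ℝ → ℂ,
    (∀ t, IsH1 (ψ t) (ψ' t)) ∧
    (∃ C : ℝ, ∀ t, ∫ x, (‖ψ t x‖ ^ 2 + ‖ψ' t x‖ ^ 2) ≤ C) ∧
    (∀ t₀, Tendsto (fun t => ∫ x, (‖ψ t x - ψ t₀ x‖ ^ 2 + ‖ψ' t x - ψ' t₀ x‖ ^ 2))
      (𝓝 t₀) (𝓝 0)) ∧
    (∀ θ : ℝ → ℝ → ℝ, ContDiff ℝ (⊤ : ℕ∞) (fun p : ℝ × ℝ => θ p.1 p.2) →
      HasCompactSupport (fun p : ℝ × ℝ => θ p.1 p.2) →
      ∫ t, ∫ x, (Complex.I * ψ t x * ((deriv (fun s => θ s x) t : ℝ) : ℂ)
        + ψ' t x * ((deriv (θ t) x : ℝ) : ℂ)
        + ((V x + ‖ψ t x‖ ^ 2 : ℝ) : ℂ) * ψ t x * ((θ t x : ℝ) : ℂ)) = 0)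

/-- The weighted norm `‖⟨x⟩^δ ψ(t)‖` in `L²` is bounded uniformly in `t ≥ 0`. -/
def IsLocalized (δ : ℝ) (ψ : ℝ → ℝ → ℂ) : Prop :=
  ∃ C : ℝ, ∀ t, 0 ≤ t →
    Integrable (fun x : ℝ => ((√(1 + x ^ 2)) ^ δ * ‖ψ t x‖) ^ 2) volume ∧
    ∫ x : ℝ, ((√(1 + x ^ 2)) ^ δ * ‖ψ t x‖) ^ 2 ≤ C

/-- Every bounded solution, of any size, satisfies the local Morawetz estimates
`∫ ∫_{|x| ≤ R} |ψ|⁴ dx dt < ∞` over all times, tends to zero uniformly on bounded sets as
`t → ±∞`, and is not localized unless it vanishes. -/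
theorem result (V : ℝ → ℝ) (hV : IsPotential V) (ψ : ℝ → ℝ → ℂ) (hψ : IsBoundedSolution V ψ) :
    (∀ R : ℝ, ∫⁻ t, ∫⁻ x in Icc (-R) R, ENNReal.ofReal (‖ψ t x‖ ^ 4) < ⊤) ∧
    (∀ R ε : ℝ, 0 < ε → ∃ T₀ : ℝ, ∀ t x : ℝ, T₀ ≤ |t| → |x| ≤ R → ‖ψ t x‖ ≤ ε) ∧
    (∀ δ : ℝ, 0 < δ → IsLocalized δ ψ → ∀ t x, ψ t x = 0) := by
  obtain ⟨ψ', h1, ⟨C, hC⟩, hcont, heq⟩ := hψ
  obtain ⟨Vm, hVm⟩ := hV.bounded
  have hS : Sol V ψ ψ' C := sol_of_distr hV.cont hVm
    (fun t => ⟨(h1 t).memLp, (h1 t).memLp', (h1 t).ftc⟩) hC hcont heq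
  have hmor := one V ψ ψ' C Vm hV.cont hVm hV.nonneg hV.ne_zero hV.short hS
  have hdec := one_dec dec V ψ ψ' C Vm hV.cont hVm hS hmor
  have hmor' : ∀ R : ℝ, 0 < R →
      ∫⁻ t, ∫⁻ x in Icc (-R) R, ENNReal.ofReal (‖ψ t x‖ ^ 4) < ⊤ := by
    intro R hR
    obtain ⟨K, hK⟩ := hmor R hR
    have hct := oned_cont hV.cont hVm hS
    have hq : Continuous fun t => ∫ x in (-R)..R, ‖ψ t x‖ ^ 4 := by
      refine intervalIntegral.continuous_of_dominated_interval
        (bound := fun _ => (2 * (1 + C)) ^ 4) (fun t => ?_) (fun t => ?_) (by simp) ?_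
      · have := (hS.h1 t).cont
        exact (by fun_prop : Continuous fun x => ‖ψ t x‖ ^ 4).aestronglyMeasurable
      · refine ae_of_all _ fun x _ => ?_
        rw [norm_pow, norm_norm]
        have := hS.sup t x
        gcongr
      · refine ae_of_all _ fun x _ => ?_
        have := hct x
        fun_prop
    have h0 : ∀ t, 0 ≤ ∫ x in (-R)..R, ‖ψ t x‖ ^ 4 := fun t =>
      intervalIntegral.integral_nonneg (by linarith) fun x _ => by positivity
    have h2 := lint_of_bd hq h0 hK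
    have e : ∀ t, ∫⁻ x in Icc (-R) R, ENNReal.ofReal (‖ψ t x‖ ^ 4) =
        ENNReal.ofReal (∫ x in (-R)..R, ‖ψ t x‖ ^ 4) := by
      intro t
      have ct := (hS.h1 t).cont
      have hi : IntegrableOn (fun x => ‖ψ t x‖ ^ 4) (Icc (-R) R) :=
        (by fun_prop : Continuous fun x => ‖ψ t x‖ ^ 4).continuousOn.integrableOn_compact
          isCompact_Icc
      rw [intervalIntegral.integral_of_le (by linarith), ← integral_Icc_eq_integral_Ioc,
        ofReal_integral_eq_lintegral_ofReal hi (ae_of_all _ fun x => by positivity)]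
    simp only [e]
    exact h2.trans_lt ENNReal.ofReal_lt_top
  refine ⟨fun R => ?_, hdec, ?_⟩
  · refine lt_of_le_of_lt ?_ (hmor' (max R 1) (lt_max_of_lt_right one_pos))
    refine lintegral_mono fun t => lintegral_mono_set (Icc_subset_Icc ?_ (le_max_left _ _))
    exact neg_le_neg (le_max_left _ _)
  · intro δ hδ hloc
    by_contra hne
    push Not at hne
    obtain ⟨t₁, x₁, hx₁⟩ := hne
    have i1 : ∀ t, Integrable fun x => ‖ψ t x‖ ^ 2 := fun t =>
      (h1 t).memLp.integrable_norm_pow (by norm_num)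
    set m := ∫ x, ‖ψ t₁ x‖ ^ 2 with hm
    have hm0 : 0 < m := by
      have c := (hS.h1 t₁).cont
      refine (integral_pos_iff_support_of_nonneg (fun x => by positivity) (i1 t₁)).2 ?_
      have ho : IsOpen (Function.support fun x => ‖ψ t₁ x‖ ^ 2) :=
        (by fun_prop : Continuous fun x => ‖ψ t₁ x‖ ^ 2).isOpen_support
      refine ho.measure_pos volume ⟨x₁, ?_⟩
      simpa using hx₁
    have hmass : ∀ t, ∫ x, ‖ψ t x‖ ^ 2 = m := fun t =>
      le_antisymm (mass_cons hV.cont hVm hS t t₁) (mass_cons hV.cont hVm hS t₁ t)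
    obtain ⟨K, hK⟩ := hloc
    -- choice of the radius
    obtain ⟨R, hR1, hR2⟩ : ∃ R : ℝ, 1 ≤ R ∧ max 1 (2 * (|K| + 1) / m) ≤ R ^ δ :=
      ((eventually_ge_atTop (1 : ℝ)).and
        ((tendsto_rpow_atTop hδ).eventually_ge_atTop (max 1 (2 * (|K| + 1) / m)))).exists
    set w : ℝ → ℝ := fun x => (√(1 + x ^ 2)) ^ δ with hw
    have hwR : ∀ x, R ≤ |x| → 2 * (|K| + 1) / m ≤ w x ^ 2 := by
      intro x hx
      have e1 : R ≤ √(1 + x ^ 2) := by
        refine Real.le_sqrt_of_sq_le ?_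
        have := sq_abs x
        nlinarith [abs_nonneg x]
      have e2 : R ^ δ ≤ w x := Real.rpow_le_rpow (by linarith) e1 hδ.le
      have e3 := (le_max_left _ _).trans (hR2.trans e2)
      have e4 := (le_max_right _ _).trans (hR2.trans e2)
      nlinarith
    have htight : ∀ t, 0 ≤ t → m / 2 ≤ ∫ x in (-R)..R, ‖ψ t x‖ ^ 2 := by
      intro t ht
      obtain ⟨k1, k2⟩ := hK t ht
      have hKm : 0 < 2 * (|K| + 1) / m := by positivity
      set q := 2 * (|K| + 1) / m with hq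
      have hind : Integrable ((Ioc (-R) R).indicator fun x => ‖ψ t x‖ ^ 2) :=
        (i1 t).indicator measurableSet_Ioc
      have hle : ∫ x, ‖ψ t x‖ ^ 2 ≤ ∫ x, ((Ioc (-R) R).indicator (fun x => ‖ψ t x‖ ^ 2) x +
          q⁻¹ * (w x * ‖ψ t x‖) ^ 2) := by
        refine integral_mono (i1 t) (hind.add (k1.const_mul _)) fun x => ?_
        simp only
        by_cases hx : x ∈ Ioc (-R) R
        · rw [indicator_of_mem hx]
          have : 0 ≤ q⁻¹ * (w x * ‖ψ t x‖) ^ 2 := by positivity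
          linarith
        · rw [indicator_of_notMem hx, zero_add]
          have hxR : R ≤ |x| := by
            rw [mem_Ioc, not_and_or, not_lt, not_le] at hx
            rcases hx with h | h
            · rw [abs_of_nonpos (by linarith)]; linarith
            · exact h.le.trans (le_abs_self x)
          have h2 := hwR x hxR
          rw [mul_pow, ← mul_assoc]
          have h3 : 1 ≤ q⁻¹ * w x ^ 2 := by
            rw [inv_mul_eq_div, le_div_iff₀ hKm]; linarith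
          nlinarith [sq_nonneg ‖ψ t x‖]
      rw [integral_add hind (k1.const_mul _), integral_const_mul,
        integral_indicator measurableSet_Ioc,
        hmass t, ← intervalIntegral.integral_of_le (by linarith : -R ≤ R)] at hle
      have h4 : q⁻¹ * ∫ x, (w x * ‖ψ t x‖) ^ 2 ≤ m / 2 := by
        have h5 : ∫ x, (w x * ‖ψ t x‖) ^ 2 ≤ |K| + 1 :=
          k2.trans ((le_abs_self K).trans (by linarith))
        calc q⁻¹ * ∫ x, (w x * ‖ψ t x‖) ^ 2 ≤ q⁻¹ * (|K| + 1) := by gcongr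
          _ = m / 2 := by rw [hq]; field_simp
      linarith
    -- contradiction with the decay
    set ε := √(m / (8 * R)) with hε
    have hε0 : 0 < ε := Real.sqrt_pos.2 (by positivity)
    obtain ⟨T₀, hT₀⟩ := hdec R ε hε0
    have h5 := htight (|T₀|) (abs_nonneg _)
    have ct := (hS.h1 (|T₀|)).cont
    have h6 : ∫ x in (-R)..R, ‖ψ (|T₀|) x‖ ^ 2 ≤ ∫ _x in (-R)..R, ε ^ 2 := by
      refine intervalIntegral.integral_mono_on (by linarith)
        ((by fun_prop : Continuous fun x => ‖ψ (|T₀|) x‖ ^ 2).intervalIntegrable _ _) (by simp)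
        fun x hx => ?_
      have := hT₀ (|T₀|) x (by rw [abs_abs]; exact le_abs_self _) (abs_le.2 hx)
      gcongr
    rw [intervalIntegral.integral_const, smul_eq_mul, hε, Real.sq_sqrt (by positivity)] at h6
    have h7 : (R - -R) * (m / (8 * R)) = m / 4 := by field_simp; ring
    linarith

end Pool.Agent.Results.MP_0c4061_mp.OneDimDecay
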